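import Mathlib

/-!
# Definitions: WEP, QWEP, the hyperfinite II₁ factor and crossed products (short printed form)
-/

set_option autoImplicit false

open scoped InnerProductSpace CStarAlgebra

namespace Pool.Agent.N859.QX

section general

variable {H : Type} [NormedAddCommGroup H] [InnerProductSpace ℂ H] [CompleteSpace H]

/-- The representation `π` of the algebra `B` of operators has a *weak expectation*: a unital
completely positive map `Φ` from the bounded operators to the double commutant of the image of `π`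
which is the identity on the image of `π`. -/
structure HasExpectation (B : StarSubalgebra ℂ (H →L[ℂ] H)) {K : Type} [NormedAddCommGroup K]
    [InnerProductSpace ℂ K] [CompleteSpace K] (π : B →⋆ₐ[ℂ] (K →L[ℂ] K)) : Prop where
  expectation : ∃ Φ : (K →L[ℂ] K) →CP (K →L[ℂ] K), Φ 1 = 1 ∧
      (∀ T, Φ T ∈ Set.centralizer (Set.centralizer (Set.range π))) ∧ ∀ b, Φ (π b) = π b

/-- Every faithful unital `*`-representation of `B` on the Hilbert space `K` has a weak
expectation. -/
structure WEPOn (B : StarSubalgebra ℂ (H →L[ℂ] H)) (K : Type) [NormedAddCommGroup K]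
    [InnerProductSpace ℂ K] [CompleteSpace K] : Prop where
  expectation : ∀ π : B →⋆ₐ[ℂ] (K →L[ℂ] K), Function.Injective π → HasExpectation B π

/-- A C⋆-algebra `B` of operators has the *weak expectation property* (Lance) if every faithful
unital `*`-representation `π` of `B` on any Hilbert space has a weak expectation. -/
structure WEP (B : StarSubalgebra ℂ (H →L[ℂ] H)) : Prop where
  all : ∀ (K : Type) [NormedAddCommGroup K] [InnerProductSpace ℂ K] [CompleteSpace K], WEPOn B K

/-- The von Neumann algebra `N` is a quotient of a C⋆-algebra `B` of operators on the Hilbert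
space `K` which has the weak expectation property. -/
inductive QuotientOfWEP (N : VonNeumannAlgebra H) (K : Type) [NormedAddCommGroup K]
    [InnerProductSpace ℂ K] [CompleteSpace K] : Prop
  | mk (B : StarSubalgebra ℂ (K →L[ℂ] K)) (closed : IsClosed (B : Set (K →L[ℂ] K))) (wep : WEP B)
      (q : B →⋆ₐ[ℂ] (H →L[ℂ] H)) (onto : Set.range q = (N : Set (H →L[ℂ] H))) : QuotientOfWEP N K

/-- A von Neumann algebra `N` is *QWEP* (Kirchberg) if it is a quotient of a C⋆-algebra with the
weak expectation property: there are a Hilbert space `K`, a norm closed unital `*`-algebra `B` of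
operators on `K` with the weak expectation property and a unital `*`-homomorphism of `B`
onto `N`. -/
inductive QWEP (N : VonNeumannAlgebra H) : Prop
  | mk (K : Type) [NormedAddCommGroup K] [InnerProductSpace ℂ K] [CompleteSpace K]
      (quotient : QuotientOfWEP N K) : QWEP N

/-- `R` is the hyperfinite II₁ factor, acting on the Hilbert space `H`, and its tracial state is the
vector state `x ↦ ⟨ξ, x ξ⟩`: `R` is an infinite-dimensional factor, the vector state is a faithful
trace, and `R` is generated by an increasing sequence of finite-dimensional `*`-subalgebras. -/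
structure IsHyperfiniteII1 (R : VonNeumannAlgebra H) (ξ : H) : Prop where
  factor : ∀ z ∈ R, z ∈ R.commutant → ∃ c : ℂ, z = c • (1 : H →L[ℂ] H)
  infinite : ¬ FiniteDimensional ℂ R.toStarSubalgebra
  unit : ‖ξ‖ = 1
  tracial : ∀ x ∈ R, ∀ y ∈ R, ⟪ξ, x (y ξ)⟫_ℂ = ⟪ξ, y (x ξ)⟫_ℂ
  faithful : ∀ x ∈ R, x ξ = 0 → x = 0
  afd : ∃ D : ℕ → StarSubalgebra ℂ (H →L[ℂ] H), Monotone D ∧ (∀ n, FiniteDimensional ℂ (D n)) ∧
    Set.centralizer (Set.centralizer (⋃ n, (D n : Set (H →L[ℂ] H)))) = (R : Set (H →L[ℂ] H))

/-- An action of the group `G` on the von Neumann algebra `R` by `*`-automorphisms `act g`; only the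
values of `act g` on `R` matter. -/
structure Action (G : Type) [Group G] (R : VonNeumannAlgebra H) where
  act : G → (H →L[ℂ] H) → (H →L[ℂ] H)
  mem : ∀ g, ∀ x ∈ R, act g x ∈ R
  one : ∀ x ∈ R, act 1 x = x
  mul : ∀ g h, ∀ x ∈ R, act (g * h) x = act g (act h x)
  map_one : ∀ g, act g 1 = 1
  map_add : ∀ g, ∀ x ∈ R, ∀ y ∈ R, act g (x + y) = act g x + act g y
  map_smul : ∀ g (c : ℂ), ∀ x ∈ R, act g (c • x) = c • act g x
  map_mul : ∀ g, ∀ x ∈ R, ∀ y ∈ R, act g (x * y) = act g x * act g y
  map_star : ∀ g, ∀ x ∈ R, act g (star x) = star (act g x)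

variable {G : Type} [Group G]
variable {E : Type} [NormedAddCommGroup E] [InnerProductSpace ℂ E] [CompleteSpace E]

/-- The coordinates `c ζ g` identify the Hilbert space `E` with `ℓ²(G, H)`. -/
structure IsL2 (c : E → G → H) : Prop where
  add : ∀ ζ η, c (ζ + η) = c ζ + c η
  smul : ∀ (a : ℂ) (ζ : E), c (a • ζ) = a • c ζ
  norm : ∀ ζ, HasSum (fun g => ‖c ζ g‖ ^ 2) (‖ζ‖ ^ 2)
  surj : ∀ f : G → H, (Summable fun g => ‖f g‖ ^ 2) → ∃ ζ, c ζ = f

/-- The generators of the crossed product on `E = ℓ²(G, H)`: the operators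
`(π(x) ζ)(g) = α_g⁻¹(x) ζ(g)` for `x` in `R` and `(λ(h) ζ)(g) = ζ(h⁻¹ g)` for `h` in `G`. -/
inductive CrossedGen (c : E → G → H) {R : VonNeumannAlgebra H} (α : Action G R) :
    (E →L[ℂ] E) → Prop
  | pi (x : H →L[ℂ] H) (hx : x ∈ R) (T : E →L[ℂ] E)
      (hT : ∀ ζ g, c (T ζ) g = α.act g⁻¹ x (c ζ g)) : CrossedGen c α T
  | lam (h : G) (T : E →L[ℂ] E) (hT : ∀ ζ g, c (T ζ) g = c ζ (h⁻¹ * g)) : CrossedGen c α T

/-- `M` is the von Neumann algebra crossed product `R ⋊ G`: the smallest von Neumann algebra on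
`E = ℓ²(G, H)` that contains the generators. -/
structure IsCrossedProduct (c : E → G → H) {R : VonNeumannAlgebra H} (α : Action G R)
    (M : VonNeumannAlgebra E) : Prop where
  contains : ∀ T, CrossedGen c α T → T ∈ M
  least : ∀ N : VonNeumannAlgebra E, (∀ T, CrossedGen c α T → T ∈ N) → ∀ T ∈ M, T ∈ N

variable (G H E)

/-- There is a trace preserving action of `G` on the hyperfinite II₁ factor `R` on the Hilbert
space `H` whose von Neumann algebra crossed product `M = R ⋊ G` on `E = ℓ²(G, H)` is not QWEP. -/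
inductive NonQWEPOn : Prop
  | mk (R : VonNeumannAlgebra H) (ξ : H) (hyperfinite : IsHyperfiniteII1 R ξ) (α : Action G R)
      (trace : ∀ g, ∀ x ∈ R, ⟪ξ, α.act g x ξ⟫_ℂ = ⟪ξ, x ξ⟫_ℂ) (c : E → G → H) (coords : IsL2 c)
      (M : VonNeumannAlgebra E) (crossed : IsCrossedProduct c α M)
      (notQWEP : ¬ QWEP M) : NonQWEPOn

end general

/-- `G` is residually finite. -/
structure IsRF (G : Type) [Group G] : Prop where
  sep : ∀ g : G, g ≠ 1 → ∃ N : Subgroup G, N.Normal ∧ N.FiniteIndex ∧ g ∉ N

/-- There is a trace preserving action of `G` on the hyperfinite II₁ factor `R` whose von Neumann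
algebra crossed product `R ⋊ G` is not QWEP. -/
inductive HasNonQWEP (G : Type) [Group G] : Prop
  | mk (H : Type) [NormedAddCommGroup H] [InnerProductSpace ℂ H] [CompleteSpace H] (E : Type)
      [NormedAddCommGroup E] [InnerProductSpace ℂ E] [CompleteSpace E] (on : NonQWEPOn H G E) :
      HasNonQWEP G

end Pool.Agent.N859.QX
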