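import Pool.Agent.N859.QW.Defs
import Pool.Agent.N859.QW.Defs2

/-!
# Comparison of the two forms of the definitions
-/

set_option autoImplicit false

open scoped InnerProductSpace CStarAlgebra

namespace Pool.Agent.N859.QX

open Pool.Agent.N859 (QW.WEP QW.QWEP)

variable {H : Type} [NormedAddCommGroup H] [InnerProductSpace ℂ H] [CompleteSpace H]

theorem wep_iff (B : StarSubalgebra ℂ (H →L[ℂ] H)) : WEP B ↔ QW.WEP B :=
  ⟨fun h K _ _ _ π hπ => (((h.all K).expectation π hπ).expectation),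
    fun h => ⟨fun K _ _ _ => ⟨fun π hπ => ⟨h K π hπ⟩⟩⟩⟩

theorem qwep_iff (N : VonNeumannAlgebra H) : QWEP N ↔ QW.QWEP N := by
  constructor
  · rintro ⟨K, B, hB, hW, q, hq⟩
    exact ⟨K, inferInstance, inferInstance, inferInstance, B, q, hB, (wep_iff B).1 hW, hq⟩
  · rintro ⟨K, _, _, _, B, q, hB, hW, hq⟩
    exact ⟨K, ⟨B, hB, (wep_iff B).2 hW, q, hq⟩⟩

theorem hyp_iff (R : VonNeumannAlgebra H) (ξ : H) :
    IsHyperfiniteII1 R ξ ↔ QW.IsHyperfiniteII1 R ξ :=
  ⟨fun h => ⟨h.factor, h.infinite, h.unit, h.tracial, h.faithful, h.afd⟩,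
    fun h => ⟨h.factor, h.infinite, h.unit, h.tracial, h.faithful, h.afd⟩⟩

theorem mem_toStar {R : VonNeumannAlgebra H} {x : H →L[ℂ] H} :
    x ∈ R.toStarSubalgebra ↔ x ∈ R := Iff.rfl

variable {G : Type} [Group G]

open Classical in
/-- The action given by a homomorphism to the automorphism group. -/
noncomputable def ofHom {R : VonNeumannAlgebra H} (α : G →* QW.Aut R) : Action G R where
  act g x := if h : x ∈ R.toStarSubalgebra then (α g ⟨x, h⟩ : R.toStarSubalgebra) else 0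
  mem g x hx := by
    rw [dif_pos (mem_toStar.2 hx)]
    exact (α g ⟨x, hx⟩ : R.toStarSubalgebra).2
  one x hx := by
    rw [dif_pos (mem_toStar.2 hx), map_one]
    rfl
  mul g h x hx := by
    rw [dif_pos (mem_toStar.2 hx), dif_pos (mem_toStar.2 hx), dif_pos (Subtype.prop _), map_mul]
    rfl
  map_one g := by
    rw [dif_pos (one_mem R.toStarSubalgebra)]
    have : (⟨1, one_mem R.toStarSubalgebra⟩ : R.toStarSubalgebra) = 1 := rfl
    rw [this, _root_.map_one (α g)]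
    rfl
  map_add g x hx y hy := by
    rw [dif_pos (mem_toStar.2 hx), dif_pos (mem_toStar.2 hy),
      dif_pos (add_mem (mem_toStar.2 hx) (mem_toStar.2 hy))]
    have : (⟨x + y, add_mem (mem_toStar.2 hx) (mem_toStar.2 hy)⟩ : R.toStarSubalgebra) =
      ⟨x, mem_toStar.2 hx⟩ + ⟨y, mem_toStar.2 hy⟩ := rfl
    rw [this, _root_.map_add (α g)]
    rfl
  map_smul g c x hx := by
    rw [dif_pos (mem_toStar.2 hx), dif_pos (SMulMemClass.smul_mem c (mem_toStar.2 hx))]
    have : (⟨c • x, SMulMemClass.smul_mem c (mem_toStar.2 hx)⟩ : R.toStarSubalgebra) =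
      c • ⟨x, mem_toStar.2 hx⟩ := rfl
    rw [this, _root_.map_smul (α g)]
    rfl
  map_mul g x hx y hy := by
    rw [dif_pos (mem_toStar.2 hx), dif_pos (mem_toStar.2 hy),
      dif_pos (mul_mem (mem_toStar.2 hx) (mem_toStar.2 hy))]
    have : (⟨x * y, mul_mem (mem_toStar.2 hx) (mem_toStar.2 hy)⟩ : R.toStarSubalgebra) =
      ⟨x, mem_toStar.2 hx⟩ * ⟨y, mem_toStar.2 hy⟩ := rfl
    rw [this, _root_.map_mul (α g)]
    rfl
  map_star g x hx := by
    rw [dif_pos (mem_toStar.2 hx), dif_pos (star_mem (mem_toStar.2 hx))]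
    have : (⟨star x, star_mem (mem_toStar.2 hx)⟩ : R.toStarSubalgebra) =
      star ⟨x, mem_toStar.2 hx⟩ := rfl
    rw [this, StarHomClass.map_star (α g)]
    rfl

theorem ofHom_act {R : VonNeumannAlgebra H} (α : G →* QW.Aut R) (g : G)
    (x : R.toStarSubalgebra) : (ofHom α).act g x = (α g x : R.toStarSubalgebra) :=
  dif_pos x.2

theorem mem_vN {S : Set (H →L[ℂ] H)} {T : H →L[ℂ] H} (hT : T ∈ S) : T ∈ QW.vN S := by
  unfold QW.vN
  rw [VonNeumannAlgebra.mem_commutant_iff]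
  intro z hz
  have hz' : z ∈ StarSubalgebra.centralizer ℂ S := hz
  rw [StarSubalgebra.mem_centralizer_iff] at hz'
  exact ((hz' T hT).1).symm

theorem vN_le {S : Set (H →L[ℂ] H)} {N : VonNeumannAlgebra H} (hS : ∀ T ∈ S, T ∈ N)
    {T : H →L[ℂ] H} (hT : T ∈ QW.vN S) : T ∈ N := by
  rw [← N.commutant_commutant, VonNeumannAlgebra.mem_commutant_iff]
  unfold QW.vN at hT
  rw [VonNeumannAlgebra.mem_commutant_iff] at hT
  intro z hz
  refine hT z ?_
  show z ∈ StarSubalgebra.centralizer ℂ S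
  rw [StarSubalgebra.mem_centralizer_iff]
  rw [VonNeumannAlgebra.mem_commutant_iff] at hz
  intro y hy
  exact ⟨hz y (hS y hy), hz _ (star_mem (hS y hy))⟩

/-- the coordinates of `ℓ²(G, H)` -/
def co (ζ : lp (fun _ : G => H) 2) (g : G) : H := ζ g

theorem isL2_co : IsL2 (co : lp (fun _ : G => H) 2 → G → H) where
  add ζ η := by
    funext g
    show ((ζ + η : lp (fun _ : G => H) 2) : ∀ _ : G, H) g = ζ g + η g
    rw [lp.coeFn_add]
    rfl
  smul a ζ := by
    funext g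
    show ((a • ζ : lp (fun _ : G => H) 2) : ∀ _ : G, H) g = a • ζ g
    rw [lp.coeFn_smul]
    rfl
  norm ζ := by
    have h := lp.hasSum_norm (p := 2) (by norm_num) ζ
    simp only [ENNReal.toReal_ofNat, Real.rpow_ofNat] at h
    exact h
  surj f hf := by
    have h : Memℓp f 2 := by
      refine memℓp_gen ?_
      simpa using hf
    exact ⟨⟨f, h⟩, rfl⟩

theorem crossedGen_iff {R : VonNeumannAlgebra H} (α : G →* QW.Aut R)
    (T : lp (fun _ : G => H) 2 →L[ℂ] lp (fun _ : G => H) 2) :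
    CrossedGen co (ofHom α) T ↔ T ∈ QW.crossedGen R α := by
  constructor
  · rintro (⟨x, hx, _, hT⟩ | ⟨h, _, hT⟩)
    · left
      refine ⟨⟨x, hx⟩, fun ζ g => ?_⟩
      have h1 := hT ζ g
      unfold co at h1
      rw [h1]
      exact congrArg (fun z : H →L[ℂ] H => z ((ζ : ∀ _ : G, H) g)) (ofHom_act α g⁻¹ ⟨x, hx⟩)
    · right
      exact ⟨h, hT⟩
  · rintro (⟨x, hT⟩ | ⟨h, hT⟩)
    · refine CrossedGen.pi x x.2 T fun ζ g => ?_
      unfold co
      rw [hT ζ g, ofHom_act]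
    · exact CrossedGen.lam h T hT

theorem isCrossed {R : VonNeumannAlgebra H} (α : G →* QW.Aut R) :
    IsCrossedProduct co (ofHom α) (QW.crossed R α) where
  contains T hT := mem_vN ((crossedGen_iff α T).1 hT)
  least _ hN _ hT := vN_le (fun T hT => hN T ((crossedGen_iff α T).2 hT)) hT

theorem isRF_of {G : Type} [Group G] (h : ∀ T : Finset G, ∃ (Q : Type) (_ : Group Q)
    (_ : Finite Q) (φ : G →* Q), Set.InjOn φ (T : Set G)) : IsRF G := by
  classical
  refine ⟨fun g hg => ?_⟩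
  obtain ⟨Q, _, _, φ, hφ⟩ := h {g, 1}
  refine ⟨φ.ker, inferInstance, ?_, fun hgk => hg ?_⟩
  · exact Subgroup.finiteIndex_ker φ
  · exact hφ (by simp) (by simp) (by rw [MonoidHom.mem_ker.1 hgk, map_one])

end Pool.Agent.N859.QX
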