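import Mathlib

/-!
# Definitions: WEP, QWEP, the hyperfinite II₁ factor and von Neumann algebra crossed products
-/

set_option autoImplicit false

open scoped InnerProductSpace CStarAlgebra

namespace Pool.Agent.N859.QW

section general

variable {H : Type} [NormedAddCommGroup H] [InnerProductSpace ℂ H] [CompleteSpace H]

/-- A C⋆-algebra `B` of operators (a norm closed unital `*`-algebra of bounded operators on a Hilbert
space) has the *weak expectation property* (Lance) if for every faithful unital `*`-representation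
`π` of `B` on a Hilbert space `H` there is a unital completely positive map `Φ` from `B(H)` to the
double commutant `π(B)''` which is the identity on `π(B)`. -/
def WEP (B : StarSubalgebra ℂ (H →L[ℂ] H)) : Prop :=
  ∀ (K : Type) [NormedAddCommGroup K] [InnerProductSpace ℂ K] [CompleteSpace K]
    (π : B →⋆ₐ[ℂ] (K →L[ℂ] K)), Function.Injective π →
    ∃ Φ : (K →L[ℂ] K) →CP (K →L[ℂ] K), Φ 1 = 1 ∧
      (∀ T, Φ T ∈ Set.centralizer (Set.centralizer (Set.range π))) ∧ ∀ b, Φ (π b) = π b

/-- A von Neumann algebra `N` is *QWEP* (Kirchberg) if it is a quotient of a C⋆-algebra with the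
weak expectation property: there are a C⋆-algebra `B` of operators with the weak expectation
property and a unital `*`-homomorphism `q` of `B` onto `N`. -/
def QWEP (N : VonNeumannAlgebra H) : Prop :=
  ∃ (K : Type) (_ : NormedAddCommGroup K) (_ : InnerProductSpace ℂ K) (_ : CompleteSpace K)
    (B : StarSubalgebra ℂ (K →L[ℂ] K)) (q : B →⋆ₐ[ℂ] (H →L[ℂ] H)),
    IsClosed (B : Set (K →L[ℂ] K)) ∧ WEP B ∧ Set.range q = (N : Set (H →L[ℂ] H))

/-- The von Neumann algebra generated by a set of operators. -/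
noncomputable def vN (S : Set (H →L[ℂ] H)) : VonNeumannAlgebra H :=
  VonNeumannAlgebra.commutant
    { toStarSubalgebra := StarSubalgebra.centralizer ℂ S
      centralizer_centralizer' := by
        show Set.centralizer (Set.centralizer
          ((StarSubalgebra.centralizer ℂ S : StarSubalgebra ℂ (H →L[ℂ] H)) : Set (H →L[ℂ] H))) =
            ((StarSubalgebra.centralizer ℂ S : StarSubalgebra ℂ (H →L[ℂ] H)) : Set (H →L[ℂ] H))
        rw [StarSubalgebra.coe_centralizer]
        simp }

/-- `R` is the hyperfinite II₁ factor, acting on the Hilbert space `H`, and its tracial state is the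
vector state `x ↦ ⟨ξ, x ξ⟩`: `R` is an infinite-dimensional factor, the vector state is a faithful
trace, and `R` is generated by an increasing sequence of finite-dimensional `*`-subalgebras. -/
structure IsHyperfiniteII1 (R : VonNeumannAlgebra H) (ξ : H) : Prop where
  factor : ∀ z ∈ R, z ∈ R.commutant → ∃ c : ℂ, z = c • (1 : H →L[ℂ] H)
  infinite : ¬ FiniteDimensional ℂ R.toStarSubalgebra
  unit : ‖ξ‖ = 1
  tracial : ∀ x ∈ R, ∀ y ∈ R, ⟪ξ, x (y ξ)⟫_ℂ = ⟪ξ, y (x ξ)⟫_ℂ
  faithful : ∀ x ∈ R, x ξ = 0 → x = 0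
  afd : ∃ D : ℕ → StarSubalgebra ℂ (H →L[ℂ] H), Monotone D ∧ (∀ n, FiniteDimensional ℂ (D n)) ∧
    Set.centralizer (Set.centralizer (⋃ n, (D n : Set (H →L[ℂ] H)))) = (R : Set (H →L[ℂ] H))

/-- The `*`-automorphisms of a von Neumann algebra. -/
abbrev Aut (R : VonNeumannAlgebra H) : Type := R.toStarSubalgebra ≃⋆ₐ[ℂ] R.toStarSubalgebra

variable {G : Type} [Group G]

/-- The Hilbert space `ℓ²(G, H)`. -/
abbrev L2 (G : Type) (H : Type) [NormedAddCommGroup H] : Type := lp (fun _ : G => H) 2

/-- The generators of the crossed product on `ℓ²(G, H)`: the operators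
`(π(x) ξ)(g) = α_g⁻¹(x) ξ(g)` for `x` in `R` and `(λ(h) ξ)(g) = ξ(h⁻¹ g)` for `h` in `G`. -/
def crossedGen (R : VonNeumannAlgebra H) (α : G →* Aut R) : Set (L2 G H →L[ℂ] L2 G H) :=
  {T | ∃ x : R.toStarSubalgebra, ∀ (ζ : L2 G H) (g : G),
      (T ζ : ∀ _ : G, H) g = ((α g⁻¹ x : R.toStarSubalgebra) : H →L[ℂ] H) ((ζ : ∀ _ : G, H) g)} ∪
  {T | ∃ h : G, ∀ (ζ : L2 G H) (g : G), (T ζ : ∀ _ : G, H) g = (ζ : ∀ _ : G, H) (h⁻¹ * g)}

/-- The von Neumann algebra crossed product `R ⋊ G`. -/
noncomputable def crossed (R : VonNeumannAlgebra H) (α : G →* Aut R) :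
    VonNeumannAlgebra (L2 G H) := vN (crossedGen R α)

end general

end Pool.Agent.N859.QW
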