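import Pool.Agent.N859.QW.Wre
import Pool.Agent.N52.ST.Final
import Pool.Agent.N289.SA.Pair
import Pool.Agent.N833.QW.BIM
import Pool.Agent.N286.QW.STATE
import Pool.Agent.N163.QW.DAY
import Pool.Agent.N2.QW.Mat
import Pool.Agent.N128.QW.HF
import Pool.Agent.N278.QW.Cross
import Pool.Agent.N771.QW.SFP
import Pool.Agent.N303.KQ.Cor
import Pool.Agent.N859.QW.Conv

/-!
# Crossed products of the hyperfinite II₁ factor by a residually finite group which are not QWEP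
-/

set_option autoImplicit false

open scoped InnerProductSpace CStarAlgebra

namespace Pool.Agent.N859.QW

open Pool.Agent.H21R2 (IsHyperlinear)
open Pool.Agent.W661.RC (HasT)

/-- **QWEP implies hyperlinear.** -/
theorem qh : S_QH :=
  qh_of (Pool.Agent.N286.QW.t_state fun _ _ _ _ Φ h1 a ha haa T =>
    Pool.Agent.N833.QW.t_bim Φ h1 a ha haa T) Pool.Agent.N163.QW.t_day Pool.Agent.N2.QW.t_mat

/-- residually finite groups are hyperlinear -/
theorem hyp_rf {G : Type} [Group G] (h : ∀ T : Finset G, ∃ (Q : Type) (_ : Group Q) (_ : Finite Q)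
    (φ : G →* Q), Set.InjOn φ (T : Set G)) : IsHyperlinear G := by
  classical
  refine Pool.Agent.N303.KQ.hyp_of_lef fun A h1 g hg hg1 => ?_
  obtain ⟨Q, _, _, φ, hφ⟩ := h A
  have := Fintype.ofFinite Q
  refine ⟨Q, inferInstance, inferInstance, fun x => Equiv.mulLeft (φ x), ?_, ?_, ?_⟩
  · ext x; simp
  · intro a _ b _ _
    ext x; simp
  · intro h2
    have h3 := congrArg (fun σ : Equiv.Perm Q => σ 1) h2
    simp only [Equiv.coe_mulLeft, mul_one, Equiv.Perm.coe_one, id_eq] at h3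
    exact hg1 (hφ hg h1 (by rw [h3, map_one]))

/-- The wreath product is not hyperlinear. -/
theorem wreath_not_hyp (G : Type) [Group G] (K : Subgroup G) (hG : HasT G) (hK : HasT K)
    (hgen : Subgroup.closure {g : G | ∀ k ∈ K, g⁻¹ * k * g ∈ K} = ⊤) (g k' : G)
    (hg : ∀ k ∈ K, g⁻¹ * k * g ∈ K) (hk' : k' ∈ K) (hgk : g * k' * g⁻¹ ∉ K) :
    ¬ IsHyperlinear (SF (XX K) ⋊[thX (actX K)] G) := by
  refine not_hyp K g k' hgk fun hP p hp => ?_
  set j : G →* SF (XX K) ⋊[thX (actX K)] G := SemidirectProduct.inr with hj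
  have hjinj : Function.Injective j := SemidirectProduct.inr_injective
  have h1 : HasT j.range := Pool.Agent.N52.ST.hasT_of_surjective j.rangeRestrict
    j.rangeRestrict_surjective hG
  have h2 : HasT (K.map j) := Pool.Agent.N52.ST.hasT_of_surjective
    (K.equivMapOfInjective j hjinj).toMonoidHom (K.equivMapOfInjective j hjinj).surjective hK
  have h3 : K.map j ≤ j.range := by
    rintro _ ⟨k, -, rfl⟩
    exact ⟨k, rfl⟩
  have h4 : {x : SF (XX K) ⋊[thX (actX K)] G | x ∈ j.range ∧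
      ∀ k ∈ K.map j, x⁻¹ * k * x ∈ K.map j} = j '' {g : G | ∀ k ∈ K, g⁻¹ * k * g ∈ K} := by
    ext x
    constructor
    · rintro ⟨⟨y, rfl⟩, hy⟩
      refine ⟨y, fun k hk => ?_, rfl⟩
      obtain ⟨z, hz, hzz⟩ := hy (j k) ⟨k, hk, rfl⟩
      rw [← map_inv, ← map_mul, ← map_mul] at hzz
      exact (hjinj hzz) ▸ hz
    · rintro ⟨y, hy, rfl⟩
      refine ⟨⟨y, rfl⟩, ?_⟩
      rintro _ ⟨k, hk, rfl⟩
      exact ⟨y⁻¹ * k * y, hy k hk, by rw [map_mul, map_mul, map_inv]⟩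
  have h5 := Pool.Agent.N52.ST.strong_main (SF (XX K) ⋊[thX (actX K)] G) j.range (K.map j) hP h1 h2
    h3 (by
      rw [h4, ← MonoidHom.map_closure, hgen, MonoidHom.range_eq_map]) (j g) ⟨g, rfl⟩ (by
      rintro _ ⟨k, hk, rfl⟩
      exact ⟨g⁻¹ * k * g, hg k hk, by rw [map_mul, map_mul, map_inv]⟩) p (by
      rintro _ ⟨k, hk, rfl⟩
      exact hp k hk) (j k') ⟨k', hk', rfl⟩
  rw [map_mul, map_mul, map_inv]
  exact h5

/-- **Main theorem.** -/
theorem main : ∃ (G : Type) (_ : Group G), Countable G ∧ HasT G ∧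
    (∀ T : Finset G, ∃ (Q : Type) (_ : Group Q) (_ : Finite Q) (f : G →* Q),
      Set.InjOn f (T : Set G)) ∧ IsHyperlinear G ∧
    ∃ (H : Type) (_ : NormedAddCommGroup H) (_ : InnerProductSpace ℂ H) (_ : CompleteSpace H)
      (R : VonNeumannAlgebra H) (ξ : H) (α : G →* Aut R), IsHyperfiniteII1 R ξ ∧
      (∀ g (x : R.toStarSubalgebra), ⟪ξ, ((α g x : R.toStarSubalgebra) : H →L[ℂ] H) ξ⟫_ℂ =
        ⟪ξ, (x : H →L[ℂ] H) ξ⟫_ℂ) ∧ ¬ QWEP (crossed R α) := by
  obtain ⟨G, _, K, hc, hrf, hTG, hTK, hgen, g, hg, k', hk', hgk⟩ := Pool.Agent.N289.SA.s_pair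
  refine ⟨G, inferInstance, hc, hTG, hrf, hyp_rf hrf, ?_⟩
  have : Countable (G ⧸ K) := (QuotientGroup.mk_surjective (s := K)).countable
  have hI : Infinite (XX K) := inferInstance
  obtain ⟨h1, ⟨F, hF1, hF2, hF3⟩, h3⟩ := Pool.Agent.N771.QW.t_sfp (XX K)
  obtain ⟨α, hα, u, r, ζ, hD⟩ := Pool.Agent.N278.QW.t_cross (SF (XX K)) G (thX (actX K))
  refine ⟨l2 (SF (XX K)), inferInstance, inferInstance, inferInstance, LG (SF (XX K)),
    dl (SF (XX K)), α, Pool.Agent.N128.QW.t_hf (SF (XX K)) F hF1 hF2 hF3 h3, hα, fun hq => ?_⟩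
  exact wreath_not_hyp G K hTG hTK hgen g k' hg hk' hgk (qh _ _ _ u r ζ hq hD)

/-- The main theorem with the short definitions. -/
theorem main' : ∃ (G : Type) (_ : Group G), Countable G ∧ QX.IsRF G ∧ IsHyperlinear G ∧
    QX.HasNonQWEP G := by
  obtain ⟨G, _, hc, _, hrf, hh, H, _, _, _, R, ξ, α, hR, htr, hq⟩ := main
  refine ⟨G, inferInstance, hc, QX.isRF_of hrf, hh, ?_⟩
  refine QX.HasNonQWEP.mk H (L2 G H) (QX.NonQWEPOn.mk R ξ ((QX.hyp_iff R ξ).2 hR) (QX.ofHom α)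
    (fun g x hx => ?_) QX.co QX.isL2_co (crossed R α) (QX.isCrossed α)
    fun h => hq ((QX.qwep_iff _).1 h))
  have h1 := QX.ofHom_act α g ⟨x, hx⟩
  have h2 := htr g ⟨x, hx⟩
  rw [← h1] at h2
  exact h2

end Pool.Agent.N859.QW
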