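import Pool.Agent.N859.QW.Defs
import Pool.Agent.H21R2.HDefs

/-!
# Statements of the steps: a QWEP von Neumann algebra with group-like unitaries gives a hyperlinear
group; group von Neumann algebras and crossed products
-/

set_option autoImplicit false

open scoped InnerProductSpace CStarAlgebra

namespace Pool.Agent.N859.QW

open Pool.Agent.H21R2 (IsHyperlinear)

/-- The hypotheses on a von Neumann algebra `N`, unitaries `u` in `N` forming a group `Γ`, operators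
`r g` in the commutant of `N` and a vector `ξ` with `r g ξ = u g ξ`. -/
structure Dt {H : Type} [NormedAddCommGroup H] [InnerProductSpace ℂ H] [CompleteSpace H]
    (N : VonNeumannAlgebra H) {Γ : Type} [Group Γ] (u : Γ →* unitary (H →L[ℂ] H))
    (r : Γ → (H →L[ℂ] H)) (ξ : H) : Prop where
  mem : ∀ g, (u g : H →L[ℂ] H) ∈ N
  com : ∀ g, ∀ x ∈ N, x * r g = r g * x
  unit : ‖ξ‖ = 1
  orth : ∀ g, g ≠ 1 → ⟪ξ, (u g : H →L[ℂ] H) ξ⟫_ℂ = 0
  eq1 : ∀ g, r g ξ = (u g : H →L[ℂ] H) ξ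
  eq2 : ∀ g, star (r g) ξ = (star (u g : H →L[ℂ] H)) ξ

/-- STATE: the invariant state on all bounded operators. -/
def S_STATE : Prop :=
  ∀ (H : Type) [NormedAddCommGroup H] [InnerProductSpace ℂ H] [CompleteSpace H]
    (N : VonNeumannAlgebra H) (Γ : Type) [Group Γ] (u : Γ →* unitary (H →L[ℂ] H))
    (r : Γ → (H →L[ℂ] H)) (ξ : H), QWEP N → Dt N u r ξ →
    ∃ (K : Type) (_ : NormedAddCommGroup K) (_ : InnerProductSpace ℂ K) (_ : CompleteSpace K)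
      (b : Γ → (K →L[ℂ] K)) (φ : (K →L[ℂ] K) →ₗ[ℂ] ℂ),
      b 1 = 1 ∧ φ 1 = 1 ∧ (∀ T, φ (star T) = star (φ T)) ∧ (∀ T, 0 ≤ (φ (star T * T)).re) ∧
      (∀ g V, φ (star (b g) * V * b g) = φ V) ∧
      (∀ g, φ (star (1 - star (b g) * b g) * (1 - star (b g) * b g)) = 0) ∧
      (∀ g h, φ (star (b (g * h) - b g * b h) * (b (g * h) - b g * b h)) = 0) ∧
      ∀ g, g ≠ 1 → φ (b g) = 0

/-- DAY: an invariant state is approximated by almost invariant finite rank densities. -/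
def S_DAY : Prop :=
  ∀ (K : Type) [NormedAddCommGroup K] [InnerProductSpace ℂ K] [CompleteSpace K]
    (φ : (K →L[ℂ] K) →ₗ[ℂ] ℂ) (m n : ℕ) (b : Fin m → (K →L[ℂ] K)) (X : Fin n → (K →L[ℂ] K)),
    φ 1 = 1 → (∀ T, φ (star T) = star (φ T)) → (∀ T, 0 ≤ (φ (star T * T)).re) →
    (∀ i V, φ (star (b i) * V * b i) = φ V) →
    (∀ j, φ (X j) = 0) → ∀ ε : ℝ, 0 < ε →
    ∃ (N : ℕ) (ζ : Fin N → K), ∑ k, ‖ζ k‖ ^ 2 = 1 ∧
      (∀ i, ∀ V : K →L[ℂ] K, ‖V‖ ≤ 1 →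
        ‖∑ k, (⟪ζ k, V (ζ k)⟫_ℂ - ⟪b i (ζ k), V (b i (ζ k))⟫_ℂ)‖ ≤ ε) ∧
      ∀ j, ‖∑ k, ⟪ζ k, X j (ζ k)⟫_ℂ‖ ≤ ε

/-- MAT: from densities to matrices. -/
def S_MAT : Prop :=
  ∀ (Γ : Type) [Group Γ],
    (∀ A : Finset Γ, ∃ M : ℝ, ∀ ε : ℝ, 0 < ε →
      ∃ (K : Type) (_ : NormedAddCommGroup K) (_ : InnerProductSpace ℂ K) (_ : CompleteSpace K)
        (b : Γ → (K →L[ℂ] K)) (N : ℕ) (ζ : Fin N → K), b 1 = 1 ∧ (∀ g ∈ A, ‖b g‖ ≤ M) ∧
        ∑ k, ‖ζ k‖ ^ 2 = 1 ∧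
        (∀ g ∈ A, ∀ V : K →L[ℂ] K, ‖V‖ ≤ 1 →
          ‖∑ k, (⟪ζ k, V (ζ k)⟫_ℂ - ⟪b g (ζ k), V (b g (ζ k))⟫_ℂ)‖ ≤ ε) ∧
        (∀ g ∈ A, ∑ k, ‖(1 - star (b g) * b g) (ζ k)‖ ^ 2 ≤ ε) ∧
        (∀ g ∈ A, ∀ h ∈ A, ∑ k, ‖(b (g * h) - b g * b h) (ζ k)‖ ^ 2 ≤ ε) ∧
        ∀ g ∈ A, g ≠ 1 → ‖∑ k, ⟪ζ k, b g (ζ k)⟫_ℂ‖ ≤ ε) →
    IsHyperlinear Γ

/-- The group `Γ` is hyperlinear if `N` is QWEP. -/
def S_QH : Prop :=
  ∀ (H : Type) [NormedAddCommGroup H] [InnerProductSpace ℂ H] [CompleteSpace H]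
    (N : VonNeumannAlgebra H) (Γ : Type) [Group Γ] (u : Γ →* unitary (H →L[ℂ] H))
    (r : Γ → (H →L[ℂ] H)) (ξ : H), QWEP N → Dt N u r ξ → IsHyperlinear Γ

/-- The Hilbert space `ℓ²(Λ)`. -/
abbrev l2 (Λ : Type) : Type := lp (fun _ : Λ => ℂ) 2

open Classical in
/-- The unit vector `δ_1` of `ℓ²(Λ)`. -/
noncomputable def dl (Λ : Type) [Group Λ] : l2 Λ := lp.single 2 (1 : Λ) (1 : ℂ)

/-- The group von Neumann algebra `L(Λ)`, generated by the left translations of `ℓ²(Λ)`. -/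
noncomputable def LG (Λ : Type) [Group Λ] : VonNeumannAlgebra (l2 Λ) :=
  vN {T | ∃ a : Λ, ∀ (ζ : l2 Λ) (x : Λ), (T ζ : ∀ _ : Λ, ℂ) x = (ζ : ∀ _ : Λ, ℂ) (a⁻¹ * x)}

/-- HF: the group von Neumann algebra of a locally finite ICC group is the hyperfinite factor. -/
def S_HF : Prop :=
  ∀ (Λ : Type) [Group Λ] [Infinite Λ] (F : ℕ → Subgroup Λ), Monotone F → (∀ n, Finite (F n)) →
    (∀ a, ∃ n, a ∈ F n) → (∀ a : Λ, a ≠ 1 → (Set.range fun g => g * a * g⁻¹).Infinite) →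
    IsHyperfiniteII1 (LG Λ) (dl Λ)

/-- CROSS: an action of `G` on `Λ` by automorphisms gives a trace preserving action on `L(Λ)`, and
the crossed product contains the unitaries of the group `Λ ⋊ G`. -/
def S_CROSS : Prop :=
  ∀ (Λ G : Type) [Group Λ] [Group G] (θ : G →* MulAut Λ),
    ∃ α : G →* Aut (LG Λ),
      (∀ g (x : (LG Λ).toStarSubalgebra), ⟪dl Λ, ((α g x : (LG Λ).toStarSubalgebra) :
        l2 Λ →L[ℂ] l2 Λ) (dl Λ)⟫_ℂ = ⟪dl Λ, (x : l2 Λ →L[ℂ] l2 Λ) (dl Λ)⟫_ℂ) ∧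
      ∃ (u : (Λ ⋊[θ] G) →* unitary (L2 G (l2 Λ) →L[ℂ] L2 G (l2 Λ)))
        (r : (Λ ⋊[θ] G) → (L2 G (l2 Λ) →L[ℂ] L2 G (l2 Λ))) (ξ : L2 G (l2 Λ)),
        Dt (crossed (LG Λ) α) u r ξ

/-- The group of finitely supported permutations. -/
def SF (X : Type) : Subgroup (Equiv.Perm X) where
  carrier := {σ | {x | σ x ≠ x}.Finite}
  one_mem' := by simp
  mul_mem' := by
    intro a b ha hb
    refine (ha.union hb).subset fun x hx => ?_
    by_contra h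
    simp only [Set.mem_union, Set.mem_ofPred_eq, not_or, not_not] at h
    exact hx (by rw [Equiv.Perm.mul_apply, h.2, h.1])
  inv_mem' := by
    intro a ha
    refine Set.Finite.subset ha fun x hx => ?_
    simp only [Set.mem_ofPred_eq, ne_eq] at hx ⊢
    intro h
    exact hx (by rw [Equiv.Perm.inv_eq_iff_eq, h])

/-- SFP: the finitely supported permutations of a countable infinite set form a locally finite ICC
group. -/
def S_SFP : Prop :=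
  ∀ (X : Type) [Countable X] [Infinite X], Infinite (SF X) ∧
    (∃ F : ℕ → Subgroup (SF X), Monotone F ∧ (∀ n, Finite (F n)) ∧ ∀ a, ∃ n, a ∈ F n) ∧
    ∀ a : SF X, a ≠ 1 → (Set.range fun g => g * a * g⁻¹).Infinite

/-- QH from its steps -/
theorem qh_of (h1 : S_STATE) (h2 : S_DAY) (h3 : S_MAT) : S_QH := by
  classical
  intro H _ _ _ N Γ _ u r ξ hN hD
  obtain ⟨K, _, _, _, b, φ, hb1, hφ1, hher, hpos, hinv, hsq, hmul, horth⟩ := h1 H N Γ u r ξ hN hD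
  refine h3 Γ fun A => ⟨∑ g ∈ A, ‖b g‖, fun ε hε => ?_⟩
  set e := A.equivFin with he
  set P : Finset (Γ × Γ) := A ×ˢ A with hP
  set eP := P.equivFin with heP
  set A' : Finset Γ := A.filter (· ≠ 1) with hA'
  set eA := A'.equivFin with heA
  let X : Fin A.card ⊕ (Fin P.card ⊕ Fin A'.card) → (K →L[ℂ] K) := Sum.elim
    (fun i => star (1 - star (b (e.symm i)) * b (e.symm i)) *
      (1 - star (b (e.symm i)) * b (e.symm i)))
    (Sum.elim (fun i => star (b ((eP.symm i).1.1 * (eP.symm i).1.2) -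
        b (eP.symm i).1.1 * b (eP.symm i).1.2) *
      (b ((eP.symm i).1.1 * (eP.symm i).1.2) - b (eP.symm i).1.1 * b (eP.symm i).1.2))
      (fun i => b (eA.symm i)))
  let f := Fintype.equivFin (Fin A.card ⊕ (Fin P.card ⊕ Fin A'.card))
  obtain ⟨N', ζ, h4, h5, h6⟩ := h2 K φ A.card _ (fun i => b (e.symm i)) (X ∘ f.symm) hφ1 hher hpos
    (fun i V => hinv _ V) (by
      intro j
      rcases h : f.symm j with i | i | i
      · simp only [Function.comp, h]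
        exact hsq _
      · simp only [Function.comp, h]
        exact hmul _ _
      · simp only [Function.comp, h]
        exact horth _ (Finset.mem_filter.1 (eA.symm i).2).2) ε hε
  have h7 : ∀ Y : K →L[ℂ] K, ∀ x : K, ⟪x, (star Y * Y) x⟫_ℂ = ((‖Y x‖ ^ 2 : ℝ) : ℂ) := by
    intro Y x
    rw [mul_apply_eq_comp, ContinuousLinearMap.star_eq_adjoint,
      ContinuousLinearMap.adjoint_inner_right, inner_self_eq_norm_sq_to_K]
    norm_cast
  have h8 : ∀ Y : K →L[ℂ] K, ‖∑ k, ⟪ζ k, (star Y * Y) (ζ k)⟫_ℂ‖ ≤ ε →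
      ∑ k, ‖Y (ζ k)‖ ^ 2 ≤ ε := by
    intro Y hY
    have : ∑ k, ⟪ζ k, (star Y * Y) (ζ k)⟫_ℂ = ((∑ k, ‖Y (ζ k)‖ ^ 2 : ℝ) : ℂ) := by
      rw [Complex.ofReal_sum]
      exact Finset.sum_congr rfl fun k _ => h7 Y (ζ k)
    rw [this, Complex.norm_real, Real.norm_eq_abs,
      abs_of_nonneg (Finset.sum_nonneg fun _ _ => sq_nonneg _)] at hY
    exact hY
  refine ⟨K, inferInstance, inferInstance, inferInstance, b, N', ζ, hb1, ?_, h4, ?_, ?_, ?_, ?_⟩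
  · intro g hg
    exact Finset.single_le_sum (f := fun g => ‖b g‖) (fun _ _ => norm_nonneg _) hg
  · intro g hg V hV
    have := h5 (e ⟨g, hg⟩) V hV
    simpa using this
  · intro g hg
    apply h8
    have := h6 (f (Sum.inl (e ⟨g, hg⟩)))
    simpa [X] using this
  · intro g hg h hh
    apply h8
    have := h6 (f (Sum.inr (Sum.inl (eP ⟨(g, h), Finset.mem_product.2 ⟨hg, hh⟩⟩))))
    simpa [X] using this
  · intro g hg hg1
    have := h6 (f (Sum.inr (Sum.inr (eA ⟨g, Finset.mem_filter.2 ⟨hg, hg1⟩⟩))))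
    simpa [X] using this

end Pool.Agent.N859.QW
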