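import Pool.Agent.N859.QW.Stm

/-!
# The group `SF X ⋊ G`
-/

set_option autoImplicit false

open scoped InnerProductSpace CStarAlgebra

namespace Pool.Agent.N859.QW

open Pool.Agent.H21R2 (IsHyperlinear)

instance SF_normal (X : Type) : (SF X).Normal where
  conj_mem := by
    intro a ha g
    have ha' : {x | a x ≠ x}.Finite := ha
    refine (ha'.image g).subset fun x hx => ?_
    refine ⟨g⁻¹ x, fun h => hx ?_, by simp⟩
    show (g * a * g⁻¹) x = x
    rw [Equiv.Perm.mul_apply, Equiv.Perm.mul_apply, h]
    simp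

/-- the action of `G` on `SF X` from a permutation action on `X` -/
def thX {G X : Type} [Group G] (act : G →* Equiv.Perm X) : G →* MulAut (SF X) :=
  (MulAut.conjNormal (H := SF X)).comp act

theorem thX_apply {G X : Type} [Group G] (act : G →* Equiv.Perm X) (g : G) (a : SF X) :
    ((thX act g a : SF X) : Equiv.Perm X) = act g * a * (act g)⁻¹ := rfl

section quot

variable {G : Type} [Group G] (K : Subgroup G)

/-- the set acted on -/
abbrev XX : Type := (G ⧸ K) × ℕ

/-- the action of `G` on `(G ⧸ K) × ℕ` -/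
def actX : G →* Equiv.Perm (XX K) where
  toFun g := Equiv.prodCongr (MulAction.toPerm g) (Equiv.refl ℕ)
  map_one' := by
    ext x <;> simp
  map_mul' a b := by
    ext x <;> simp [mul_smul]

theorem actX_apply (g : G) (x : XX K) : actX K g x = (g • x.1, x.2) := rfl

open Classical in
/-- the transposition -/
noncomputable def tau : SF (XX K) :=
  ⟨Equiv.swap (((1 : G) : G ⧸ K), 0) (((1 : G) : G ⧸ K), 1), by
    refine (Set.toFinite {(((1 : G) : G ⧸ K), 0), (((1 : G) : G ⧸ K), 1)}).subset fun x hx => ?_
    by_contra h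
    simp only [Set.mem_insert_iff, Set.mem_singleton_iff, not_or] at h
    exact hx (Equiv.swap_apply_of_ne_of_ne h.1 h.2)⟩

open Classical in
theorem tau_val : ((tau K : SF (XX K)) : Equiv.Perm (XX K)) =
    Equiv.swap (((1 : G) : G ⧸ K), 0) (((1 : G) : G ⧸ K), 1) := rfl

theorem th_tau (g : G) : thX (actX K) g (tau K) = tau K ↔ g ∈ K := by
  classical
  have h1 : ((thX (actX K) g (tau K) : SF (XX K)) : Equiv.Perm (XX K)) =
      Equiv.swap ((g : G ⧸ K), 0) ((g : G ⧸ K), 1) := by
    rw [thX_apply, tau_val, Equiv.mul_swap_eq_swap_mul, mul_assoc, mul_inv_cancel, mul_one,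
      actX_apply, actX_apply]
    simp
  have h2 : ((1 : G) : G ⧸ K) = (g : G ⧸ K) ↔ g ∈ K := by
    rw [QuotientGroup.eq]; simp
  constructor
  · intro h
    have h3 : Equiv.swap ((g : G ⧸ K), (0 : ℕ)) ((g : G ⧸ K), 1) =
        Equiv.swap (((1 : G) : G ⧸ K), 0) (((1 : G) : G ⧸ K), 1) := by
      rw [← h1, h, tau_val]
    by_contra hg
    have hne : ((1 : G) : G ⧸ K) ≠ (g : G ⧸ K) := fun h' => hg (h2.1 h')
    have h4 := congrArg (fun σ : Equiv.Perm (XX K) => σ (((1 : G) : G ⧸ K), 0)) h3
    simp only [Equiv.swap_apply_left] at h4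
    rw [Equiv.swap_apply_of_ne_of_ne (fun h' => hne (congrArg Prod.fst h'))
      (fun h' => hne (congrArg Prod.fst h'))] at h4
    have := congrArg Prod.snd h4
    simp at this
  · intro hg
    apply Subtype.ext
    rw [h1, tau_val, h2.2 hg]

/-- The semidirect product is not hyperlinear if centralisers of `K` in hyperlinear groups are
centralisers of `g K g⁻¹`. -/
theorem not_hyp (g k' : G) (hgk : g * k' * g⁻¹ ∉ K)
    (hS : IsHyperlinear (SF (XX K) ⋊[thX (actX K)] G) →
      ∀ p : SF (XX K) ⋊[thX (actX K)] G,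
        (∀ k ∈ K, p * SemidirectProduct.inr k = SemidirectProduct.inr k * p) →
        p * SemidirectProduct.inr (g * k' * g⁻¹) = SemidirectProduct.inr (g * k' * g⁻¹) * p) :
    ¬ IsHyperlinear (SF (XX K) ⋊[thX (actX K)] G) := by
  intro hH
  have key : ∀ x : G, (SemidirectProduct.inl (tau K) : SF (XX K) ⋊[thX (actX K)] G) *
      SemidirectProduct.inr x = SemidirectProduct.inr x * SemidirectProduct.inl (tau K) ↔
      x ∈ K := by
    intro x
    rw [← th_tau K x]
    constructor
    · intro h
      have h1 : (SemidirectProduct.inl (thX (actX K) x (tau K)) : SF (XX K) ⋊[thX (actX K)] G) =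
          SemidirectProduct.inl (tau K) := by
        rw [SemidirectProduct.inl_aut, ← h, mul_assoc, ← map_mul, mul_inv_cancel, map_one, mul_one]
      exact SemidirectProduct.inl_injective h1
    · intro h
      have h1 := SemidirectProduct.inl_aut (φ := thX (actX K)) x (tau K)
      rw [h] at h1
      calc (SemidirectProduct.inl (tau K) : SF (XX K) ⋊[thX (actX K)] G) * SemidirectProduct.inr x
          = SemidirectProduct.inr x * SemidirectProduct.inl (tau K) * SemidirectProduct.inr x⁻¹ *
            SemidirectProduct.inr x := by rw [← h1]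
        _ = SemidirectProduct.inr x * SemidirectProduct.inl (tau K) := by
            rw [mul_assoc, ← map_mul, inv_mul_cancel, map_one, mul_one]
  exact hgk ((key _).1 (hS hH _ fun k hk => (key k).2 hk))

end quot

end Pool.Agent.N859.QW
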